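import Pool.Agent.W622.ETG.Stm

set_option autoImplicit false
set_option linter.unusedSectionVars false

namespace Pool.Agent.W376.ELG

open Pool.Agent.W622.ETG Module

section
variable {V V' : Type} [AddCommGroup V] [Module (ZMod 2) V] [AddCommGroup V'] [Module (ZMod 2) V']

/-- pullback of functionals -/
def PD (π : V →ₗ[ZMod 2] V') : Dl V' →ₗ[ZMod 2] Dl V where
  toFun f := f ∘ₗ π
  map_add' := fun f g => LinearMap.add_comp _ _ _
  map_smul' := fun c f => LinearMap.smul_comp _ _ _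

theorem PD_apply (π : V →ₗ[ZMod 2] V') (f : Dl V') (a : V) : PD π f a = f (π a) := rfl

/-- pullback of forms -/
def PF (π : V →ₗ[ZMod 2] V') : Frm V' →ₗ[ZMod 2] Frm V where
  toFun ω := PD π ∘ₗ ω ∘ₗ π
  map_add' := by intro f g; ext a b; rfl
  map_smul' := by intro c f; ext a b; rfl

theorem PF_apply (π : V →ₗ[ZMod 2] V') (ω : Frm V') (a : V) : PF π ω a = PD π (ω (π a)) := rfl

theorem PF_apply' (π : V →ₗ[ZMod 2] V') (ω : Frm V') (a b : V) :
    PF π ω a b = ω (π a) (π b) := rfl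

theorem PD_inj {π : V →ₗ[ZMod 2] V'} (hπ : Function.Surjective π) :
    Function.Injective (PD π) := by
  intro f g h
  ext x
  obtain ⟨a, rfl⟩ := hπ x
  rw [← PD_apply, h, PD_apply]

theorem PF_wd (π : V →ₗ[ZMod 2] V') (e : V) (p g : Dl V') :
    PF π (wd (π e) p g) = wd e (PD π p) (PD π g) := by
  ext a b
  rfl

theorem EF_PF {π : V →ₗ[ZMod 2] V'} {e : V} {ω : Frm V'} (h : EF (π e) ω) : EF e (PF π ω) := by
  constructor
  · intro a b
    rw [PF_apply', PF_apply', h.symm]
  · intro a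
    rw [PF_apply', PF_apply', h.sq]

theorem supp_map_le (π : V →ₗ[ZMod 2] V') (A : Fam V') :
    supp (A.map (PF π)) ≤ (supp A).map (PD π) := by
  rw [supp_le]
  rintro _ ⟨ω, hω, rfl⟩ a
  exact ⟨ω (π a), sp_le_supp hω ⟨π a, rfl⟩, rfl⟩

theorem El_map {π : V →ₗ[ZMod 2] V'} (hπ : Function.Surjective π) {e : V} {A : Fam V'}
    (h : El (π e) A) : El e (A.map (PF π)) := by
  induction h with
  | zero => rw [Submodule.map_bot]; exact El.zero
  | loc ω hω =>
    rw [Submodule.map_span, Set.image_singleton]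
    exact El.loc _ (EF_PF hω)
  | prod A B _ _ hd ihA ihB =>
    rw [Submodule.map_sup]
    refine El.prod _ _ ihA ihB ?_
    refine Disjoint.mono (supp_map_le π A) (supp_map_le π B) ?_
    exact Submodule.disjoint_map (PD_inj hπ) hd
  | cone A p Y _ hs hp hpe ih =>
    rw [Submodule.map_sup]
    have h1 : Submodule.map (PF π) (Submodule.map (wd (π e) p) Y) =
        Submodule.map (wd e (PD π p)) (Submodule.map (PD π) Y) := by
      ext ω
      simp only [Submodule.mem_map]
      constructor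
      · rintro ⟨_, ⟨g, hg, rfl⟩, rfl⟩
        exact ⟨PD π g, ⟨g, hg, rfl⟩, (PF_wd π e p g).symm⟩
      · rintro ⟨_, ⟨g, hg, rfl⟩, rfl⟩
        exact ⟨wd (π e) p g, ⟨g, hg, rfl⟩, PF_wd π e p g⟩
    rw [h1]
    refine El.cone _ _ _ ih ((supp_map_le π A).trans (Submodule.map_mono hs)) ?_ ?_
    · rintro ⟨g, hg, hgp⟩
      have := PD_inj hπ hgp
      subst this
      exact hp hg
    · rw [PD_apply]; exact hpe

end

theorem t_QUO : S_QUO := by
  intro V _ _ _ e A hA hH hne
  let N : Submodule (ZMod 2) V := (supp A).dualCoannihilator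
  have hN : ∀ v, v ∈ N ↔ ∀ f ∈ supp A, f v = 0 := fun v => Submodule.mem_dualCoannihilator v
  let π : V →ₗ[ZMod 2] (V ⧸ N) := N.mkQ
  have hπ : Function.Surjective π := Submodule.mkQ_surjective N
  have hfin : Finite (V ⧸ N) := Finite.of_surjective π hπ
  -- every member of `A` is a pullback
  have hpull : ∀ ω ∈ A, ∃ ω' : Frm (V ⧸ N), PF π ω' = ω := by
    intro ω hω
    obtain ⟨σ, hσ⟩ := LinearMap.exists_rightInverse_of_surjective π (LinearMap.range_eq_top.2 hπ)
    have hσ' : ∀ x, π (σ x) = x := fun x => by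
      have := LinearMap.congr_fun hσ x
      exact this
    have hker : ∀ v ∈ N, ω v = 0 := by
      intro v hv
      ext b
      rw [(hA ω hω).symm]
      exact (hN v).1 hv (ω b) (sp_le_supp hω ⟨b, rfl⟩)
    have hdiff : ∀ a, a - σ (π a) ∈ N := by
      intro a
      have h1 : π (a - σ (π a)) = 0 := by rw [map_sub, hσ', sub_self]
      exact (Submodule.Quotient.mk_eq_zero N).1 h1
    have h1 : ∀ a, ω (σ (π a)) = ω a := by
      intro a
      have := hker _ (hdiff a)
      rw [map_sub, sub_eq_zero] at this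
      exact this.symm
    refine ⟨PD σ ∘ₗ ω ∘ₗ σ, ?_⟩
    ext a b
    show ω (σ (π a)) (σ (π b)) = ω a b
    rw [h1 a, (hA ω hω).symm, h1 b, (hA ω hω).symm]
  have hinj := PD_inj hπ
  refine ⟨V ⧸ N, inferInstance, inferInstance, hfin, π e, A.comap (PF π), ?_, ?_, ?_, ?_⟩
  · obtain ⟨b, hb0, hb⟩ := exists_ann hne
    have hbN : b ∈ N := (hN b).2 fun f hf => hb hf
    have h1 := Submodule.finrank_quotient_add_finrank N
    have h2 : 0 < finrank (ZMod 2) N := by
      rw [Module.finrank_pos_iff_exists_ne_zero]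
      exact ⟨⟨b, hbN⟩, fun h => hb0 (congrArg Subtype.val h)⟩
    omega
  · intro ω hω
    constructor
    · intro x y
      obtain ⟨a, rfl⟩ := hπ x
      obtain ⟨b, rfl⟩ := hπ y
      exact (hA _ hω).symm a b
    · intro x
      obtain ⟨a, rfl⟩ := hπ x
      exact (hA _ hω).sq a
  · intro X' ω hω η hη a' c' h
    obtain ⟨a, rfl⟩ := hπ a'
    obtain ⟨c, rfl⟩ := hπ c'
    have hmem : ∀ ξ ∈ res (A.comap (PF π)) X', PF π ξ ∈ res A (X'.map (PD π)) := by
      intro ξ hξ
      exact ⟨hξ.1, fun b => ⟨ξ (π b), hξ.2 (π b), rfl⟩⟩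
    obtain ⟨ζ, hζ, hζa, hζc⟩ := hH (X'.map (PD π)) _ (hmem ω hω) _ (hmem η hη) a c
      (by rw [PF_apply, PF_apply, h])
    obtain ⟨ζ', rfl⟩ := hpull ζ hζ.1
    refine ⟨ζ', ⟨hζ.1, ?_⟩, ?_, ?_⟩
    · intro x
      obtain ⟨b, rfl⟩ := hπ x
      obtain ⟨g, hg, hgb⟩ := hζ.2 b
      have : g = ζ' (π b) := hinj hgb
      rw [← this]; exact hg
    · exact hinj hζa
    · exact hinj hζc
  · intro hEl
    have h1 := El_map hπ hEl
    have h2 : (A.comap (PF π)).map (PF π) = A := by
      ext ω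
      simp only [Submodule.mem_map, Submodule.mem_comap]
      constructor
      · rintro ⟨ω', h, rfl⟩; exact h
      · intro h
        obtain ⟨ω', rfl⟩ := hpull ω h
        exact ⟨ω', h, rfl⟩
    rwa [h2] at h1

end Pool.Agent.W376.ELG
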